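import Pool.Agent.BE01.StmtsC

/-!
# BE01, module DNS: test functions are dense in `L^2(Ω)`
-/

namespace Pool.Agent.BE01.H94

open Set Filter Topology MeasureTheory
open scoped ENNReal ContDiff Manifold

noncomputable section

variable {d : ℕ}

theorem exists_cutoff {Ω K : Set (En d)} (hΩ : IsOpen Ω) (hK : IsCompact K) (hKΩ : K ⊆ Ω) :
    ∃ χ : En d → ℝ, Tst Ω χ ∧ (∀ x ∈ K, χ x = 1) ∧ ∀ x, χ x ∈ Icc (0 : ℝ) 1 := by
  obtain ⟨V, hV1, hV2, hV3, hV4⟩ := exists_open_between_and_isCompact_closure hK hΩ hKΩ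
  obtain ⟨f, hf0, hf1, hf⟩ := exists_contMDiffMap_zero_one_of_isClosed (n := (⊤ : ℕ∞))
    (modelWithCornersSelf ℝ (En d)) hV1.isClosed_compl hK.isClosed
    (disjoint_compl_left_iff_subset.2 hV2)
  have hsup : Function.support f ⊆ V := by
    intro x hx
    by_contra h
    exact hx (hf0 h)
  have hts : tsupport f ⊆ closure V := closure_mono hsup
  refine ⟨f, ⟨f.contMDiff.contDiff, ?_, hts.trans hV3⟩, fun x hx => hf1 hx, hf⟩
  exact HasCompactSupport.of_support_subset_isCompact hV4 (hsup.trans subset_closure)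

theorem dns : DnsStmt := by
  intro d Ω hΩ
  rw [eq_univ_iff_forall]
  intro f
  have hfin : (volume : Measure (En d)) Ω ≠ ⊤ := hΩ.2.1.measure_lt_top.ne
  have : IsFiniteMeasure (mu Ω) := ⟨by rw [mu, Measure.restrict_apply_univ]; exact hfin.lt_top⟩
  rw [Metric.mem_closure_iff]
  intro ε hε
  obtain ⟨g, hg1, hg2, hg3⟩ := MemLp.exist_eLpNorm_sub_le (p := 2) (by norm_num) (by norm_num)
    (Lp.memLp f) (show (0 : ℝ) < ε / 4 by positivity)
  obtain ⟨B0, hB0⟩ := hg1.exists_bound_of_continuous hg2.continuous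
  obtain ⟨B, hB1, hB⟩ : ∃ B : ℝ, 0 < B ∧ ∀ x, ‖g x‖ ≤ B :=
    ⟨max B0 1, by positivity, fun x => (hB0 x).trans (le_max_left _ _)⟩
  have hδ : (0 : ℝ) < (ε / (4 * B)) ^ 2 := by positivity
  obtain ⟨K, hK1, hK2, hK3⟩ := hΩ.1.measurableSet.exists_isCompact_sdiff_lt hfin
    (ENNReal.ofReal_pos.2 hδ).ne'
  obtain ⟨χ, hχ1, hχ2, hχ3⟩ := exists_cutoff hΩ.1 hK2 hK1
  let ψ : En d → ℝ := fun x => χ x * g x
  have hψ : Tst Ω ψ := by
    refine ⟨hχ1.1.mul hg2, hχ1.2.1.mul_right, ?_⟩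
    exact (tsupport_mul_subset_left).trans hχ1.2.2
  have hψL : MemLp ψ 2 (mu Ω) := hψ.1.continuous.memLp_of_hasCompactSupport hψ.2.1
  refine ⟨hψL.toLp ψ, ⟨ψ, hψ, hψL.coeFn_toLp⟩, ?_⟩
  have h1 : eLpNorm (g - ψ) 2 (mu Ω) ≤ ENNReal.ofReal (ε / 4) := by
    have h2 : eLpNorm (g - ψ) 2 (mu Ω) ≤ eLpNorm ((Kᶜ).indicator fun _ => B) 2 (mu Ω) := by
      apply eLpNorm_mono_real
      intro x
      by_cases hx : x ∈ K
      · have : x ∉ Kᶜ := fun h => h hx
        rw [indicator_of_notMem this, Pi.sub_apply]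
        change ‖g x - χ x * g x‖ ≤ 0
        rw [hχ2 x hx, one_mul, sub_self, norm_zero]
      · rw [indicator_of_mem (show x ∈ Kᶜ from hx), Pi.sub_apply]
        change ‖g x - χ x * g x‖ ≤ B
        have h3 : g x - χ x * g x = (1 - χ x) * g x := by ring
        rw [h3, norm_mul]
        have h4 : ‖1 - χ x‖ ≤ 1 := by
          rw [Real.norm_eq_abs, abs_le]
          have := hχ3 x
          constructor <;> linarith [this.1, this.2]
        calc ‖1 - χ x‖ * ‖g x‖ ≤ 1 * B := by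
              apply mul_le_mul h4 (hB x) (norm_nonneg _) zero_le_one
          _ = B := one_mul B
    refine h2.trans ?_
    rw [eLpNorm_indicator_const hK2.measurableSet.compl (by norm_num) (by norm_num)]
    have h3 : (mu Ω) Kᶜ ≤ ENNReal.ofReal ((ε / (4 * B)) ^ 2) := by
      rw [mu, Measure.restrict_apply hK2.measurableSet.compl]
      refine (measure_mono ?_).trans hK3.le
      intro x hx
      exact ⟨hx.2, hx.1⟩
    calc ‖B‖ₑ * (mu Ω) Kᶜ ^ (1 / (2 : ℝ≥0∞).toReal)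
        ≤ ENNReal.ofReal B * (ENNReal.ofReal ((ε / (4 * B)) ^ 2)) ^ (1 / (2 : ℝ≥0∞).toReal) := by
          rw [Real.enorm_of_nonneg hB1.le]
          gcongr
      _ = ENNReal.ofReal (ε / 4) := by
          rw [ENNReal.ofReal_rpow_of_nonneg (by positivity) (by simp), ← ENNReal.ofReal_mul hB1.le]
          congr 1
          have : (1 / (2 : ℝ≥0∞).toReal) = (1 / 2 : ℝ) := by norm_num
          rw [this, ← Real.sqrt_eq_rpow, Real.sqrt_sq (by positivity)]
          field_simp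
  rw [Lp.dist_def]
  have h5 : eLpNorm (⇑f - ⇑(hψL.toLp ψ)) 2 (mu Ω) ≤ ENNReal.ofReal (ε / 2) := by
    have h6 : (⇑f - ⇑(hψL.toLp ψ)) =ᵐ[mu Ω] (⇑f - g) + (g - ψ) := by
      filter_upwards [hψL.coeFn_toLp] with x hx
      simp only [Pi.sub_apply, Pi.add_apply, hx]
      ring
    rw [eLpNorm_congr_ae h6]
    refine (eLpNorm_add_le ((Lp.aestronglyMeasurable f).sub hg2.continuous.aestronglyMeasurable)
      (hg2.continuous.sub hψ.1.continuous).aestronglyMeasurable (by norm_num)).trans ?_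
    refine (add_le_add hg3 h1).trans ?_
    rw [← ENNReal.ofReal_add (by positivity) (by positivity)]
    apply ENNReal.ofReal_le_ofReal
    linarith
  calc (eLpNorm (⇑f - ⇑(hψL.toLp ψ)) 2 (mu Ω)).toReal ≤ (ENNReal.ofReal (ε / 2)).toReal :=
        ENNReal.toReal_mono ENNReal.ofReal_ne_top h5
    _ = ε / 2 := ENNReal.toReal_ofReal (by positivity)
    _ < ε := by linarith

end

end Pool.Agent.BE01.H94
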