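import Pool.Agent.BE01.StmtsC

/-!
# BE01, module INC: inclusions of Lebesgue spaces of a finite measure
-/

namespace Pool.Agent.BE01.H94

open Set Filter Topology MeasureTheory
open scoped ENNReal

noncomputable section

theorem inc_aux {s : Type} [MeasurableSpace s] (μ : Measure s) [IsFiniteMeasure μ]
    (p q : ℝ≥0∞) [Fact (1 ≤ p)] [Fact (1 ≤ q)] (hpq : p ≤ q) :
    ∃ J : Lp ℝ q μ →L[ℝ] Lp ℝ p μ, ∀ y, J y =ᵐ[μ] y := by
  let J0 : Lp ℝ q μ → Lp ℝ p μ := fun y => ((Lp.memLp y).mono_exponent hpq).toLp y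
  have hJ0 : ∀ y, J0 y =ᵐ[μ] y := fun y => MemLp.coeFn_toLp _
  let J1 : Lp ℝ q μ →ₗ[ℝ] Lp ℝ p μ :=
    { toFun := J0
      map_add' := by
        intro x y
        apply Lp.ext
        filter_upwards [hJ0 (x + y), hJ0 x, hJ0 y, Lp.coeFn_add x y,
          Lp.coeFn_add (J0 x) (J0 y)] with z h1 h2 h3 h4 h5
        rw [h1, h5, h4, Pi.add_apply, Pi.add_apply, h2, h3]
      map_smul' := by
        intro c x
        apply Lp.ext
        filter_upwards [hJ0 (c • x), hJ0 x, Lp.coeFn_smul c x,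
          Lp.coeFn_smul c (J0 x)] with z h1 h2 h3 h4
        rw [h1, RingHom.id_apply, h4, h3, Pi.smul_apply, Pi.smul_apply, h2] }
  let C : ℝ≥0∞ := μ Set.univ ^ (1 / p.toReal - 1 / q.toReal)
  have hp1 : (1 : ℝ≥0∞) ≤ p := Fact.out
  have hC : C ≠ ⊤ := by
    rcases eq_or_ne q ⊤ with hq | hq
    · apply ENNReal.rpow_ne_top_of_nonneg _ (measure_ne_top μ _)
      rw [hq]; simp
    · apply ENNReal.rpow_ne_top_of_nonneg _ (measure_ne_top μ _)
      have hp0 : 0 < p.toReal :=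
        ENNReal.toReal_pos (by intro h; rw [h] at hp1; simp at hp1)
          (ne_top_of_le_ne_top hq hpq)
      have : p.toReal ≤ q.toReal := ENNReal.toReal_mono hq hpq
      have := one_div_le_one_div_of_le hp0 this
      linarith
  refine ⟨J1.mkContinuous C.toReal ?_, hJ0⟩
  intro y
  change ‖J0 y‖ ≤ _
  rw [Lp.norm_def, Lp.norm_def, eLpNorm_congr_ae (hJ0 y), ← ENNReal.toReal_mul]
  apply ENNReal.toReal_mono (ENNReal.mul_ne_top hC (Lp.eLpNorm_ne_top y))
  rw [mul_comm]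
  exact eLpNorm_le_eLpNorm_mul_rpow_measure_univ hpq (Lp.aestronglyMeasurable y)

/-- Module INC. -/
theorem inc : IncStmt := by
  intro s _ μ _
  exact ⟨inc_aux μ 4 6 (by norm_num), inc_aux μ 2 4 (by norm_num)⟩

end

end Pool.Agent.BE01.H94
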