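import Pool.Agent.BE01.Stmts

/-!
# BE01, module PRM: span inductions for polynomials in `δ` with trigonometric coefficients
-/

namespace Pool.Agent.BE01.H94

open Set Filter Topology

noncomputable section

variable {M M' : Type} [NormedAddCommGroup M] [NormedSpace ℝ M]
  [NormedAddCommGroup M'] [NormedSpace ℝ M']

theorem pp_cos {α c : ℕ} (k j : ℕ) (hj : j ≤ c + α * k) (m : M) :
    (fun ψ δ : ℝ => (δ ^ k * Real.cos (j * ψ)) • m) ∈ PP M α c :=
  Submodule.subset_span ⟨k, j, hj, m, Or.inl rfl⟩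

theorem pp_sin {α c : ℕ} (k j : ℕ) (hj : j ≤ c + α * k) (m : M) :
    (fun ψ δ : ℝ => (δ ^ k * Real.sin (j * ψ)) • m) ∈ PP M α c :=
  Submodule.subset_span ⟨k, j, hj, m, Or.inr rfl⟩

theorem tp_cos {n : ℕ} (j : ℕ) (hj : j ≤ n) (m : M) :
    (fun ψ : ℝ => Real.cos (j * ψ) • m) ∈ TP M n :=
  Submodule.subset_span ⟨j, hj, m, Or.inl rfl⟩

theorem tp_sin {n : ℕ} (j : ℕ) (hj : j ≤ n) (m : M) :
    (fun ψ : ℝ => Real.sin (j * ψ) • m) ∈ TP M n :=
  Submodule.subset_span ⟨j, hj, m, Or.inr rfl⟩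

theorem pp_pow {α c : ℕ} (c' k : ℕ) {P : ℝ → ℝ → M} (hP : P ∈ PP M α c)
    (hc : c ≤ c' + α * k) : (fun ψ δ => δ ^ k • P ψ δ) ∈ PP M α c' := by
  unfold PP at hP
  induction hP using Submodule.span_induction with
  | mem P h =>
    obtain ⟨k0, j, hj, m, rfl | rfl⟩ := h
    · have h1 := pp_cos (α := α) (c := c') (k + k0) j (by rw [mul_add]; omega) m
      have h2 : (fun ψ δ : ℝ => δ ^ k • (δ ^ k0 * Real.cos (j * ψ)) • m) =
          fun ψ δ => (δ ^ (k + k0) * Real.cos (j * ψ)) • m := by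
        funext ψ δ; rw [smul_smul, pow_add, mul_assoc]
      rw [h2]; exact h1
    · have h1 := pp_sin (α := α) (c := c') (k + k0) j (by rw [mul_add]; omega) m
      have h2 : (fun ψ δ : ℝ => δ ^ k • (δ ^ k0 * Real.sin (j * ψ)) • m) =
          fun ψ δ => (δ ^ (k + k0) * Real.sin (j * ψ)) • m := by
        funext ψ δ; rw [smul_smul, pow_add, mul_assoc]
      rw [h2]; exact h1
  | zero =>
    have h2 : (fun ψ δ : ℝ => δ ^ k • (0 : ℝ → ℝ → M) ψ δ) = 0 := by
      funext ψ δ; exact smul_zero _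
    rw [h2]; exact Submodule.zero_mem _
  | add x y _ _ hx hy =>
    have h2 : (fun ψ δ : ℝ => δ ^ k • (x + y) ψ δ) =
        (fun ψ δ : ℝ => δ ^ k • x ψ δ) + fun ψ δ : ℝ => δ ^ k • y ψ δ := by
      funext ψ δ; exact smul_add _ _ _
    rw [h2]; exact Submodule.add_mem _ hx hy
  | smul r x _ hx =>
    have h2 : (fun ψ δ : ℝ => δ ^ k • (r • x) ψ δ) = r • fun ψ δ : ℝ => δ ^ k • x ψ δ := by
      funext ψ δ; exact smul_comm _ _ _
    rw [h2]; exact Submodule.smul_mem _ _ hx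

theorem pp_of_tp {α c : ℕ} (k : ℕ) {F : ℝ → M} (hF : F ∈ TP M (c + α * k)) :
    (fun ψ δ => δ ^ k • F ψ) ∈ PP M α c := by
  unfold TP at hF
  induction hF using Submodule.span_induction with
  | mem P h =>
    obtain ⟨j, hj, m, rfl | rfl⟩ := h
    · have h2 : (fun ψ δ : ℝ => δ ^ k • Real.cos (j * ψ) • m) =
          fun ψ δ => (δ ^ k * Real.cos (j * ψ)) • m := by
        funext ψ δ; rw [smul_smul]
      rw [h2]; exact pp_cos k j hj m
    · have h2 : (fun ψ δ : ℝ => δ ^ k • Real.sin (j * ψ) • m) =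
          fun ψ δ => (δ ^ k * Real.sin (j * ψ)) • m := by
        funext ψ δ; rw [smul_smul]
      rw [h2]; exact pp_sin k j hj m
  | zero =>
    have h2 : (fun ψ δ : ℝ => δ ^ k • (0 : ℝ → M) ψ) = 0 := by
      funext ψ δ; exact smul_zero _
    rw [h2]; exact Submodule.zero_mem _
  | add x y _ _ hx hy =>
    have h2 : (fun ψ δ : ℝ => δ ^ k • (x + y) ψ) =
        (fun ψ δ : ℝ => δ ^ k • x ψ) + fun ψ δ : ℝ => δ ^ k • y ψ := by
      funext ψ δ; exact smul_add _ _ _
    rw [h2]; exact Submodule.add_mem _ hx hy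
  | smul r x _ hx =>
    have h2 : (fun ψ δ : ℝ => δ ^ k • (r • x) ψ) = r • fun ψ δ : ℝ => δ ^ k • x ψ := by
      funext ψ δ; exact smul_comm _ _ _
    rw [h2]; exact Submodule.smul_mem _ _ hx

theorem pp_map {α c : ℕ} (T : M →L[ℝ] M') {P : ℝ → ℝ → M} (hP : P ∈ PP M α c) :
    (fun ψ δ => T (P ψ δ)) ∈ PP M' α c := by
  unfold PP at hP
  induction hP using Submodule.span_induction with
  | mem P h =>
    obtain ⟨k0, j, hj, m, rfl | rfl⟩ := h
    · have h2 : (fun ψ δ : ℝ => T ((δ ^ k0 * Real.cos (j * ψ)) • m)) =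
          fun ψ δ => (δ ^ k0 * Real.cos (j * ψ)) • T m := by
        funext ψ δ; rw [map_smul]
      rw [h2]; exact pp_cos k0 j hj (T m)
    · have h2 : (fun ψ δ : ℝ => T ((δ ^ k0 * Real.sin (j * ψ)) • m)) =
          fun ψ δ => (δ ^ k0 * Real.sin (j * ψ)) • T m := by
        funext ψ δ; rw [map_smul]
      rw [h2]; exact pp_sin k0 j hj (T m)
  | zero =>
    have h2 : (fun ψ δ : ℝ => T ((0 : ℝ → ℝ → M) ψ δ)) = 0 := by
      funext ψ δ; exact map_zero T
    rw [h2]; exact Submodule.zero_mem _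
  | add x y _ _ hx hy =>
    have h2 : (fun ψ δ : ℝ => T ((x + y) ψ δ)) =
        (fun ψ δ : ℝ => T (x ψ δ)) + fun ψ δ : ℝ => T (y ψ δ) := by
      funext ψ δ; exact map_add T _ _
    rw [h2]; exact Submodule.add_mem _ hx hy
  | smul r x _ hx =>
    have h2 : (fun ψ δ : ℝ => T ((r • x) ψ δ)) = r • fun ψ δ : ℝ => T (x ψ δ) := by
      funext ψ δ; exact map_smul T _ _
    rw [h2]; exact Submodule.smul_mem _ _ hx

theorem pp_split {α c : ℕ} {P : ℝ → ℝ → M} (hP : P ∈ PP M α c) :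
    (fun ψ => P ψ 0) ∈ TP M c ∧ ∃ Q ∈ PP M α (c + α), ∀ ψ δ, P ψ δ = P ψ 0 + δ • Q ψ δ := by
  unfold PP at hP
  induction hP using Submodule.span_induction with
  | mem P h =>
    obtain ⟨k0, j, hj, m, rfl | rfl⟩ := h
    · rcases k0 with _ | k0
      · refine ⟨?_, 0, Submodule.zero_mem _, ?_⟩
        · have h2 : (fun ψ : ℝ => ((0 : ℝ) ^ 0 * Real.cos (j * ψ)) • m) =
              fun ψ => Real.cos (j * ψ) • m := by
            funext ψ; rw [pow_zero, one_mul]
          rw [h2]; exact tp_cos j (by omega) m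
        · intro ψ δ
          simp
      · refine ⟨?_, _, pp_cos k0 j (by rw [mul_add] at hj; omega) m, ?_⟩
        · have h2 : (fun ψ : ℝ => ((0 : ℝ) ^ (k0 + 1) * Real.cos (j * ψ)) • m) = 0 := by
            funext ψ; simp
          rw [h2]; exact Submodule.zero_mem _
        · intro ψ δ
          rw [smul_smul]
          simp only [ne_eq, Nat.add_eq_zero_iff, one_ne_zero, and_false, not_false_eq_true,
            zero_pow, zero_mul, zero_smul, zero_add]
          congr 1; ring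
    · rcases k0 with _ | k0
      · refine ⟨?_, 0, Submodule.zero_mem _, ?_⟩
        · have h2 : (fun ψ : ℝ => ((0 : ℝ) ^ 0 * Real.sin (j * ψ)) • m) =
              fun ψ => Real.sin (j * ψ) • m := by
            funext ψ; rw [pow_zero, one_mul]
          rw [h2]; exact tp_sin j (by omega) m
        · intro ψ δ
          simp
      · refine ⟨?_, _, pp_sin k0 j (by rw [mul_add] at hj; omega) m, ?_⟩
        · have h2 : (fun ψ : ℝ => ((0 : ℝ) ^ (k0 + 1) * Real.sin (j * ψ)) • m) = 0 := by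
            funext ψ; simp
          rw [h2]; exact Submodule.zero_mem _
        · intro ψ δ
          rw [smul_smul]
          simp only [ne_eq, Nat.add_eq_zero_iff, one_ne_zero, and_false, not_false_eq_true,
            zero_pow, zero_mul, zero_smul, zero_add]
          congr 1; ring
  | zero =>
    refine ⟨Submodule.zero_mem _, 0, Submodule.zero_mem _, ?_⟩
    intro ψ δ; simp
  | add x y _ _ hx hy =>
    obtain ⟨h1, Q, hQ, h2⟩ := hx
    obtain ⟨h1', Q', hQ', h2'⟩ := hy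
    refine ⟨Submodule.add_mem _ h1 h1', Q + Q', Submodule.add_mem _ hQ hQ', ?_⟩
    intro ψ δ
    change x ψ δ + y ψ δ = x ψ 0 + y ψ 0 + δ • (Q ψ δ + Q' ψ δ)
    rw [h2 ψ δ, h2' ψ δ, smul_add]
    abel
  | smul r x _ hx =>
    obtain ⟨h1, Q, hQ, h2⟩ := hx
    refine ⟨Submodule.smul_mem _ r h1, r • Q, Submodule.smul_mem _ r hQ, ?_⟩
    intro ψ δ
    change r • x ψ δ = r • x ψ 0 + δ • (r • Q ψ δ)
    rw [h2 ψ δ, smul_add, smul_comm r δ]

/-- Module PRM. -/
theorem prm : PrmStmt := by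
  intro M M' _ _ _ _ T α c
  refine ⟨fun c' k P hP hc => pp_pow c' k hP hc, fun k F hF => pp_of_tp k hF, fun P hP => ?_⟩
  exact ⟨pp_map T hP, pp_split hP⟩

end

end Pool.Agent.BE01.H94
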